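import Pool.Agent.D0H14.BC.Stm
import Pool.Agent.Y282.RB.K

/-!
# BC FIN: from functions supported in annuli to all Schwartz functions of the class (helper52)
-/

set_option autoImplicit false

namespace Pool.Agent.D0H52.BC

open MeasureTheory Set Filter Topology
open scoped ENNReal SchwartzMap ContDiff
open Pool.Agent.D0H14.BC Pool.Agent.Y282.RB Pool.Agent.Y282.RB.K
open Pool.Agent.TH55.PowA (T Ft bs sm Adm T_integrand_int T_cont Ft_eq Ft_fun Ft_int bs_meas
  bs_norm_le norm_ex meas_ex)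

/-- truncations -/
theorem trunc (m : ℤ) (f : 𝓢(ℂ, ℂ)) (hf : Cl m f) (ε : ℝ) (h0 : 0 < ε) (h1 : ε < 1) :
    ∃ (h : 𝓢(ℂ, ℂ)), Cl m h ∧ Ann h ∧
      (∀ z, ‖h z‖ ≤ ‖f z‖) ∧ (∀ z, ‖(f - h) z‖ ≤ ‖f z‖) ∧
      ∀ z, ε ≤ Complex.normSq z → Complex.normSq z ≤ 1 / ε → (f - h) z = 0 := by
  obtain ⟨χ, R, hχ1, hχ2, hχ3, hχ4, hχ5, hχ6⟩ := exists_cut ε h0 h1
  obtain ⟨H, hH⟩ : ∃ H : ℂ → ℂ, H = fun z => (χ (Complex.normSq z) : ℂ) * f z := ⟨_, rfl⟩
  have hrs : ContDiff ℝ ∞ H := by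
    rw [hH]
    refine ContDiff.mul ?_ (f.smooth ⊤)
    have h2 : ContDiff ℝ ∞ (fun z : ℂ => Complex.normSq z) := by
      have : (fun z : ℂ => Complex.normSq z) = fun z => z.re * z.re + z.im * z.im := by
        funext z
        exact Complex.normSq_apply z
      rw [this]
      exact (Complex.reCLM.contDiff.mul Complex.reCLM.contDiff).add
        (Complex.imCLM.contDiff.mul Complex.imCLM.contDiff)
    exact Complex.ofRealCLM.contDiff.comp (hχ1.comp h2)
  have hrc : HasCompactSupport H := by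
    refine HasCompactSupport.intro (isCompact_closedBall (0 : ℂ) (max R 1)) fun z hz => ?_
    rw [Metric.mem_closedBall, dist_zero_right, not_le] at hz
    rw [hH]
    simp only
    rw [hχ6 _ ?_]
    · simp
    · rw [Complex.normSq_eq_norm_sq]
      have h2 : R < ‖z‖ := lt_of_le_of_lt (le_max_left _ _) hz
      have h3 : 1 < ‖z‖ := lt_of_le_of_lt (le_max_right _ _) hz
      nlinarith
  refine ⟨hrc.toSchwartzMap hrs, ?_, ⟨hrc, ?_⟩, fun z => ?_, fun z => ?_, fun z hz1 hz2 => ?_⟩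
  · intro a z ha
    show H (a * z) = a ^ m * H z
    rw [hH]
    simp only
    rw [hf a z ha, map_mul, Complex.normSq_eq_norm_sq a, ha]
    simp only [one_pow, one_mul]
    ring
  · refine ⟨ε / 2, by linarith, fun z hz => ?_⟩
    show H z = 0
    rw [hH]
    simp only
    rw [hχ5 _ ?_]
    · simp
    · rw [Complex.normSq_eq_norm_sq]
      have := norm_nonneg z
      nlinarith
  · show ‖H z‖ ≤ ‖f z‖
    rw [hH]
    simp only
    rw [norm_mul, Complex.norm_real, Real.norm_of_nonneg (hχ3 _).1]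
    exact mul_le_of_le_one_left (norm_nonneg _) (hχ3 _).2
  · show ‖f z - H z‖ ≤ ‖f z‖
    have e : f z - H z = ((1 - χ (Complex.normSq z) : ℝ) : ℂ) * f z := by
      rw [hH]
      push_cast
      ring
    rw [e, norm_mul, Complex.norm_real, Real.norm_of_nonneg (by linarith [(hχ3 (Complex.normSq z)).2])]
    exact mul_le_of_le_one_left (norm_nonneg _) (by linarith [(hχ3 (Complex.normSq z)).1])
  · show f z - H z = 0
    rw [hH]
    simp only
    rw [hχ4 _ hz1 hz2]
    simp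

theorem t_FIN : S_FIN := by
  intro n m p C hn hp hC hH f hf
  have hk : ∀ k : ℕ, (0 : ℝ) < 1 / ((k : ℝ) + 2) ∧ 1 / ((k : ℝ) + 2) < 1 := by
    intro k
    have : (0 : ℝ) ≤ k := Nat.cast_nonneg k
    refine ⟨by positivity, ?_⟩
    rw [div_lt_one (by linarith)]
    linarith
  choose h hcl hann hle1 hle2 hz using fun k : ℕ =>
    trunc m f hf (1 / ((k : ℝ) + 2)) (hk k).1 (hk k).2
  set K : ℝ≥0∞ := ENNReal.ofReal (Pool.Agent.TH55.PowA.Cn n * (p - 1)) with hK
  have hKt : K ≠ ⊤ := ENNReal.ofReal_ne_top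
  have hP1 : (1 : ℝ≥0∞) ≤ ENNReal.ofReal p := by
    rw [← ENNReal.ofReal_one]
    exact ENNReal.ofReal_le_ofReal (by linarith)
  have hbound : ∀ k, eLpNorm (Tn n f) (ENNReal.ofReal p) (volume : Measure ℂ) ≤
      K * eLpNorm (f - h k : 𝓢(ℂ, ℂ)) (ENNReal.ofReal p) (volume : Measure ℂ) +
        ENNReal.ofReal C * eLpNorm (⇑f) (ENNReal.ofReal p) (volume : Measure ℂ) := by
    intro k
    have e1 : Tn n f = fun z => Tn n (f - h k : 𝓢(ℂ, ℂ)) z + Tn n (h k) z := by
      rw [← Tn_add]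
      congr 2
      rw [sub_add_cancel]
    have m1 : AEStronglyMeasurable (Tn n (f - h k : 𝓢(ℂ, ℂ))) (volume : Measure ℂ) := by
      rw [Tn_eq]
      exact (T_cont (adm_sy n) _).aestronglyMeasurable
    have m2 : AEStronglyMeasurable (Tn n (h k)) (volume : Measure ℂ) := by
      rw [Tn_eq]
      exact (T_cont (adm_sy n) _).aestronglyMeasurable
    rw [e1]
    refine (eLpNorm_add_le m1 m2 hP1).trans (add_le_add ?_ ?_)
    · rw [Tn_eq]
      exact Pool.Agent.TH55.PowA.main p hp n hn (f - h k)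
    · refine (hH (h k) (hcl k) (hann k)).trans ?_
      gcongr
      exact eLpNorm_mono (hle1 k)
  have hlim : Tendsto (fun k => K * eLpNorm (f - h k : 𝓢(ℂ, ℂ)) (ENNReal.ofReal p)
      (volume : Measure ℂ) + ENNReal.ofReal C * eLpNorm (⇑f) (ENNReal.ofReal p)
        (volume : Measure ℂ)) atTop (𝓝 (K * 0 + ENNReal.ofReal C * eLpNorm (⇑f) (ENNReal.ofReal p)
          (volume : Measure ℂ))) := by
    refine Tendsto.add ?_ tendsto_const_nhds
    refine ENNReal.Tendsto.const_mul ?_ (Or.inr hKt)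
    refine tendsto_trunc f (fun k => f - h k) p hp (fun k z => hle2 k z) fun k z hz1 hz2 => ?_
    refine hz k z hz1 ?_
    rw [one_div_one_div]
    exact hz2
  rw [mul_zero, zero_add] at hlim
  exact ge_of_tendsto' hlim hbound

end Pool.Agent.D0H52.BC
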