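import Pool.Agent.D0H14.BC.Stm

/-!
# BC LOWB: comparison with the conjectured constant (helper52)
-/

set_option autoImplicit false

namespace Pool.Agent.D0H52.BC

open Finset
open Pool.Agent.D0H14.BC

theorem log_ge {u : ℝ} (hu0 : 0 ≤ u) (hu1 : u < 1) : 2 * u + 2 * u ^ 3 / 3 ≤ Real.log ((1 + u) / (1 - u)) := by
  have h1 : |u| < 1 := by rw [abs_of_nonneg hu0]; exact hu1
  have h2 := Real.hasSum_log_sub_log_of_abs_lt_one h1
  have h3 := sum_le_hasSum (s := {0, 1}) (fun k _ => by positivity) h2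
  rw [Finset.sum_pair (by norm_num)] at h3
  rw [Real.log_div (by linarith) (by linarith)]
  refine le_trans (le_of_eq ?_) h3
  norm_num
  ring

/-- one factor -/
theorem fac {s : ℝ} (hs0 : 0 < s) (hs1 : s ≤ 1 / 2) (l : ℕ) :
    Real.exp ((1 - 2 * s) * (2 / (2 * (l : ℝ) + 1))) ≤ ((l : ℝ) + 1 - s) / (l + s) ∧
    (s < 1 / 2 → Real.exp ((1 - 2 * s) * (2 / (2 * (l : ℝ) + 1))) < ((l : ℝ) + 1 - s) / (l + s)) := by
  have hl : (0 : ℝ) ≤ l := Nat.cast_nonneg l
  set u : ℝ := (1 - 2 * s) / (2 * l + 1) with hu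
  have h1 : (0 : ℝ) < 2 * l + 1 := by linarith
  have hu0 : 0 ≤ u := div_nonneg (by linarith) h1.le
  have hu1 : u < 1 := by
    rw [hu, div_lt_one h1]
    linarith
  have h2 : (1 + u) / (1 - u) = ((l : ℝ) + 1 - s) / (l + s) := by
    have h3 : 1 - u ≠ 0 := by linarith
    have h4 : (l : ℝ) + s ≠ 0 := by linarith
    rw [div_eq_div_iff h3 h4, hu]
    field_simp
    ring
  have h3 : (1 - 2 * s) * (2 / (2 * (l : ℝ) + 1)) = 2 * u := by
    rw [hu]
    ring
  have h4 : 0 < ((l : ℝ) + 1 - s) / (l + s) := div_pos (by linarith) (by linarith)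
  have h5 := log_ge hu0 hu1
  rw [h2] at h5
  rw [h3]
  constructor
  · rw [← Real.le_log_iff_exp_le h4]
    have : 0 ≤ 2 * u ^ 3 / 3 := by positivity
    linarith
  · intro hs
    rw [← Real.lt_log_iff_exp_lt h4]
    have h6 : 0 < u := div_pos (by linarith) h1
    have : 0 < 2 * u ^ 3 / 3 := by positivity
    linarith

theorem prodQ {s : ℝ} (hs0 : 0 < s) (hs1 : s ≤ 1 / 2) (n : ℕ) :
    Real.exp ((1 - 2 * s) * hh n) ≤ (ascPochhammer ℝ n).eval (1 - s) / (ascPochhammer ℝ n).eval s ∧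
    (s < 1 / 2 → 1 ≤ n → Real.exp ((1 - 2 * s) * hh n) <
      (ascPochhammer ℝ n).eval (1 - s) / (ascPochhammer ℝ n).eval s) := by
  induction n with
  | zero =>
    constructor
    · simp [hh]
    · intro _ h
      omega
  | succ n ih =>
    have h1 := fac hs0 hs1 n
    have h2 : 0 < (ascPochhammer ℝ n).eval s := ascPochhammer_pos n _ hs0
    have h3 : 0 < (ascPochhammer ℝ n).eval (1 - s) := ascPochhammer_pos n _ (by linarith)
    have hn : (0 : ℝ) ≤ n := Nat.cast_nonneg n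
    have h4 : (ascPochhammer ℝ (n + 1)).eval (1 - s) / (ascPochhammer ℝ (n + 1)).eval s =
        (ascPochhammer ℝ n).eval (1 - s) / (ascPochhammer ℝ n).eval s * (((n : ℝ) + 1 - s) / (n + s)) := by
      rw [ascPochhammer_succ_eval, ascPochhammer_succ_eval, div_mul_div_comm]
      congr 1
      · ring
      · ring
    have h5 : Real.exp ((1 - 2 * s) * hh (n + 1)) =
        Real.exp ((1 - 2 * s) * hh n) * Real.exp ((1 - 2 * s) * (2 / (2 * (n : ℝ) + 1))) := by
      rw [hh_succ, mul_add, Real.exp_add]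
    rw [h4, h5]
    constructor
    · exact mul_le_mul ih.1 h1.1 (Real.exp_pos _).le (div_pos h3 h2).le
    · intro hs _
      exact mul_lt_mul' ih.1 (h1.2 hs) (Real.exp_pos _).le (div_pos h3 h2)

theorem t_LOWB : S_LOWB := by
  intro n p hn hp
  have hp0 : 0 < p := by linarith
  have hs0 : 0 < 1 / p := by positivity
  have hs1 : 1 / p ≤ 1 / 2 := one_div_le_one_div_of_le (by norm_num) hp
  have h := prodQ hs0 hs1 n
  have h2 : 1 - 2 / p = 1 - 2 * (1 / p) := by ring
  rw [h2]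
  refine ⟨h.1, fun hp2 => h.2 ?_ hn⟩
  exact one_div_lt_one_div_of_lt (by norm_num) hp2

end Pool.Agent.D0H52.BC
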