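import Pool.Agent.D0H14.BC.Stm

/-!
# BC POL: polar coordinates (helper52)
-/

set_option autoImplicit false

namespace Pool.Agent.D0H52.BC

open MeasureTheory Set
open scoped ENNReal
open Pool.Agent.D0H14.BC

theorem sq_image : (fun r : ℝ => r ^ 2) '' Ioi 0 = Ioi 0 := by
  ext x
  simp only [mem_image, mem_Ioi]
  constructor
  · rintro ⟨r, hr, rfl⟩
    positivity
  · intro hx
    exact ⟨√x, Real.sqrt_pos.2 hx, Real.sq_sqrt hx.le⟩

theorem subst_sq (G : ℝ → ℝ≥0∞) :
    ∫⁻ t in Ioi (0 : ℝ), G (√t) = ∫⁻ r in Ioi (0 : ℝ), ENNReal.ofReal (2 * r) * G r := by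
  have h := lintegral_image_eq_lintegral_abs_deriv_mul (s := Ioi (0 : ℝ)) (f := fun r : ℝ => r ^ 2)
    (f' := fun r => 2 * r) measurableSet_Ioi
    (fun x _ => by
      have := (hasDerivAt_pow 2 x).hasDerivWithinAt (s := Ioi (0 : ℝ))
      simpa using this)
    (fun x hx y hy hxy => by
      have hx' : (0 : ℝ) < x := hx
      have hy' : (0 : ℝ) < y := hy
      have hxy' : x ^ 2 = y ^ 2 := hxy
      exact (sq_eq_sq₀ hx'.le hy'.le).1 hxy')
    (fun t => G (√t))
  rw [sq_image] at h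
  rw [h]
  apply setLIntegral_congr_fun measurableSet_Ioi
  intro r hr
  have hr' : (0 : ℝ) < r := hr
  simp only
  rw [Real.sqrt_sq hr'.le, abs_of_pos (by linarith)]

theorem t_POL : S_POL := by
  intro p hp f hf hrad
  have hF : Measurable (fun r : ℝ => ‖f ((r : ℝ) : ℂ)‖ₑ ^ p) :=
    (hf.comp Complex.measurable_ofReal).enorm.pow_const p
  rw [← Complex.lintegral_comp_polarCoord_symm]
  have h1 : ∀ q ∈ polarCoord.target, ENNReal.ofReal q.1 • ‖f (Complex.polarCoord.symm q)‖ₑ ^ p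
      = ENNReal.ofReal q.1 * ‖f ((q.1 : ℝ) : ℂ)‖ₑ ^ p := by
    intro q hq
    have hq1 : 0 < q.1 := hq.1
    have h2 : ‖f (Complex.polarCoord.symm q)‖ = ‖f ((q.1 : ℝ) : ℂ)‖ := by
      rw [hrad, Complex.norm_polarCoord_symm, abs_of_pos hq1]
    rw [smul_eq_mul, ← ofReal_norm, h2, ofReal_norm]
  rw [setLIntegral_congr_fun polarCoord.open_target.measurableSet h1, polarCoord_target,
    Measure.volume_eq_prod, setLIntegral_prod]
  · simp only
    have h3 : ∀ x : ℝ, ∫⁻ _y : ℝ in Ioo (-Real.pi) Real.pi, ENNReal.ofReal x * ‖f ((x : ℝ) : ℂ)‖ₑ ^ p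
        = ENNReal.ofReal Real.pi * (ENNReal.ofReal (2 * x) * ‖f ((x : ℝ) : ℂ)‖ₑ ^ p) := by
      intro x
      rw [lintegral_const, Measure.restrict_apply MeasurableSet.univ, univ_inter, Real.volume_Ioo,
        ENNReal.ofReal_mul (by norm_num : (0 : ℝ) ≤ 2)]
      have : Real.pi - -Real.pi = 2 * Real.pi := by ring
      rw [this, ENNReal.ofReal_mul (by norm_num : (0 : ℝ) ≤ 2)]
      ring
    simp_rw [h3]
    rw [lintegral_const_mul _ (by fun_prop), subst_sq (fun r => ‖f ((r : ℝ) : ℂ)‖ₑ ^ p)]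
  · apply Measurable.aemeasurable
    exact (ENNReal.measurable_ofReal.comp measurable_fst).mul (hF.comp measurable_fst)

end Pool.Agent.D0H52.BC
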