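import Pool.Agent.D0H14.BC.Stm
import Pool.Agent.Y282.RB.K

/-!
# BC TR: the multiplier is its own transpose (helper52)
-/

set_option autoImplicit false

namespace Pool.Agent.D0H52.BC

open MeasureTheory Set Filter
open scoped ENNReal SchwartzMap
open Pool.Agent.D0H14.BC Pool.Agent.Y282.RB Pool.Agent.Y282.RB.K
open Pool.Agent.TH55.PowA (T Ft bs sm Adm T_integrand_int T_cont Ft_eq Ft_fun Ft_int bs_meas
  bs_norm_le norm_ex meas_ex)

theorem sm_neg (z ξ : ℂ) : sm z (-ξ) = - sm z ξ := by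
  simp [sm]
  ring

theorem bs_neg (ξ : ℂ) : bs (-ξ) = bs ξ := by
  simp [bs, neg_div_neg_eq]

theorem key_tr (n : ℕ) (f g : 𝓢(ℂ, ℂ)) :
    ∫ z : ℂ, Tn n f z * g z = ∫ ξ : ℂ, bs ξ ^ n * Ft f ξ * Ft g (-ξ) := by
  have h1 : ∀ z, Tn n f z * g z = ∫ ξ : ℂ,
      Complex.exp (2 * (Real.pi : ℂ) * Complex.I * ((sm z ξ : ℝ) : ℂ)) * (bs ξ ^ n * Ft f ξ) * g z := by
    intro z
    rw [Tn_eq]
    unfold T
    rw [← integral_mul_const]
  simp_rw [h1]
  rw [integral_integral_swap]
  · refine integral_congr_ae (Eventually.of_forall fun ξ => ?_)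
    have h2 : ∀ z, Complex.exp (2 * (Real.pi : ℂ) * Complex.I * ((sm z ξ : ℝ) : ℂ)) *
        (bs ξ ^ n * Ft f ξ) * g z = (bs ξ ^ n * Ft f ξ) *
        (Complex.exp (2 * (Real.pi : ℂ) * Complex.I * ((sm z ξ : ℝ) : ℂ)) * g z) := by
      intro z
      ring
    simp only
    simp_rw [h2]
    rw [integral_const_mul]
    congr 1
    unfold Ft
    refine integral_congr_ae (Eventually.of_forall fun z => ?_)
    simp only
    rw [sm_neg]
    congr 2
    push_cast
    ring
  · have hF : Continuous (Ft f) := by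
      rw [Ft_fun]
      exact SchwartzMap.continuous _
    refine Integrable.mono (g := fun q : ℂ × ℂ => g q.1 * Ft f q.2)
      (g.integrable.mul_prod (Ft_int f)) ?_ (Eventually.of_forall fun q => ?_)
    · apply Measurable.aestronglyMeasurable
      have m1 : Measurable (fun q : ℂ × ℂ =>
          Complex.exp (2 * (Real.pi : ℂ) * Complex.I * ((sm q.1 q.2 : ℝ) : ℂ))) := by
        unfold sm
        fun_prop
      exact (m1.mul (((bs_meas.pow_const n).comp measurable_snd).mul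
        (hF.measurable.comp measurable_snd))).mul (g.continuous.measurable.comp measurable_fst)
    · simp only [Function.uncurry]
      rw [norm_mul, norm_mul, norm_ex, one_mul, norm_mul, norm_pow, norm_mul]
      have h3 : ‖bs q.2‖ ^ n ≤ 1 := pow_le_one₀ (norm_nonneg _) (bs_norm_le _)
      have h4 : ‖bs q.2‖ ^ n * ‖Ft f q.2‖ ≤ ‖Ft f q.2‖ := mul_le_of_le_one_left (norm_nonneg _) h3
      calc ‖bs q.2‖ ^ n * ‖Ft f q.2‖ * ‖g q.1‖ ≤ ‖Ft f q.2‖ * ‖g q.1‖ :=
            mul_le_mul_of_nonneg_right h4 (norm_nonneg _)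
        _ = ‖g q.1‖ * ‖Ft f q.2‖ := mul_comm _ _

theorem t_TR : S_TR := by
  intro n f g
  have h1 : ∫ z : ℂ, f z * Tn n g z = ∫ z : ℂ, Tn n g z * f z := by
    refine integral_congr_ae (Eventually.of_forall fun z => ?_)
    exact mul_comm _ _
  rw [h1, key_tr, key_tr, ← integral_neg_eq_self]
  refine integral_congr_ae (Eventually.of_forall fun ξ => ?_)
  simp only
  rw [bs_neg, neg_neg]
  ring

end Pool.Agent.D0H52.BC
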